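import Pool.Agent.Lib.MP_524519_ag.DU5.LNK.Iface

/-! # DU5, chapter LNK, module VBK: the order of `f_0` at the points -/

set_option autoImplicit false

namespace Pool.Agent.DU5.LNK.H03

open MvPowerSeries

theorem vbk (h1 : TR.ChnStatement) (h2 : NilStatement) : VbkStatement := by
  intro k F _ _ _ D lam hD f m hm n η hn hnF hη hf
  obtain ⟨r, rfl⟩ : ∃ r, n = r + 1 := ⟨n - 1, by omega⟩
  have hη0 : PowerSeries.constantCoeff η = 0 := by
    rw [← PowerSeries.coeff_zero_eq_constantCoeff_apply]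
    exact PowerSeries.X_pow_dvd_iff.1 hη 0 (by omega)
  have hx : ∀ i, PowerSeries.constantCoeff (arc lam (r + 1) η i) = 0 := by
    intro i
    fin_cases i
    · simpa [arc] using hη0
    · simp [arc]
    · simp [arc]
  obtain ⟨hA, hB⟩ := h1 3 k F D (arc lam (r + 1) η) f hx
  have d1 : PowerSeries.derivative F (PowerSeries.X ^ (r + 1)) =
      ((r + 1 : ℕ) : PowerSeries F) * PowerSeries.X ^ r := by
    rw [Derivation.leibniz_pow, PowerSeries.derivative_X]
    simp [nsmul_eq_mul]
  have d0 : PowerSeries.derivative F (PowerSeries.C lam * PowerSeries.X ^ (r + 1)) =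
      PowerSeries.C lam * (((r + 1 : ℕ) : PowerSeries F) * PowerSeries.X ^ r) := by
    rw [Derivation.leibniz, d1, PowerSeries.derivative_C]
    simp
  have e1 : dl D (PowerSeries.X ^ (r + 1) : PowerSeries F) = 0 := by
    ext l
    simp only [dl, PowerSeries.coeff_mk, PowerSeries.coeff_X_pow, map_zero]
    split_ifs
    · exact D.map_one_eq_zero
    · exact map_zero D
  have e0 : dl D (PowerSeries.C lam * PowerSeries.X ^ (r + 1)) = PowerSeries.X ^ (r + 1) := by
    ext l
    simp only [dl, PowerSeries.coeff_mk, PowerSeries.coeff_C_mul, PowerSeries.coeff_X_pow]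
    split_ifs
    · rw [mul_one, hD]
    · rw [mul_zero, map_zero]
  have x0 : arc lam (r + 1) η 0 = η := rfl
  have x1 : arc lam (r + 1) η 1 = PowerSeries.X ^ (r + 1) := rfl
  have x2 : arc lam (r + 1) η 2 = PowerSeries.C lam * PowerSeries.X ^ (r + 1) := rfl
  have hz : dl D (0 : PowerSeries F) = 0 := by
    ext l
    simp [dl]
  rw [hf, Fin.sum_univ_three, x0, x1, x2, d0, d1, map_zero] at hA
  rw [hf, Fin.sum_univ_three, x0, x1, x2, e0, e1, hz] at hB
  set P := arc lam (r + 1) η with hP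
  by_contra hcon
  rw [not_le] at hcon
  -- the order is at least `n (m + 1) + 1`
  have hw : PowerSeries.X ^ ((r + 1) * (m + 1) + 1) ∣ ev P (pderiv k 0 f) := by
    rw [PowerSeries.X_pow_dvd_iff]
    intro j hj
    refine PowerSeries.coeff_of_lt_order j (lt_of_le_of_lt ?_ hcon)
    exact_mod_cast (by omega : j ≤ (r + 1) * (m + 1))
  have ew : (r + 1) * (m + 1) + 1 = ((r + 1) * m + 1) + (r + 1) := by ring
  have hX : ∀ l : ℕ, (PowerSeries.X : PowerSeries F) ^ l ≠ 0 := fun l =>
    pow_ne_zero l PowerSeries.X_ne_zero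
  -- the order of `f_2`
  have hf2 : PowerSeries.X ^ ((r + 1) * m + 1) ∣ ev P (pderiv k 2 f) := by
    rw [← mul_dvd_mul_iff_right (hX (r + 1)), ← pow_add, ← ew]
    have e : ev P (pderiv k 2 f) * PowerSeries.X ^ (r + 1) =
        ev P (pderiv k 0 f) * -(dl D η) := by
      linear_combination -hB
    rw [e]
    exact Dvd.dvd.mul_right hw _
  -- the order of `f_1`
  obtain ⟨t, ht⟩ := hη
  have hη' : PowerSeries.derivative F η =
      PowerSeries.X ^ r * (((r + 1 : ℕ) : PowerSeries F) * t +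
        PowerSeries.X * PowerSeries.derivative F t) := by
    rw [ht, Derivation.leibniz, d1]
    simp only [smul_eq_mul]
    ring
  have hcn : ((r + 1 : ℕ) : PowerSeries F) * PowerSeries.C (((r + 1 : ℕ) : F)⁻¹) = 1 := by
    rw [← map_natCast (PowerSeries.C : F →+* PowerSeries F), ← map_mul, mul_inv_cancel₀ hnF,
      map_one]
  have hf12 : PowerSeries.X ^ ((r + 1) * (m + 1) + 1) ∣
      ev P (pderiv k 1 f) + PowerSeries.C lam * ev P (pderiv k 2 f) := by
    rw [← mul_dvd_mul_iff_right (hX r)]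
    have e : (ev P (pderiv k 1 f) + PowerSeries.C lam * ev P (pderiv k 2 f)) *
        PowerSeries.X ^ r = ev P (pderiv k 0 f) * PowerSeries.X ^ r *
          (-(PowerSeries.C (((r + 1 : ℕ) : F)⁻¹) * (((r + 1 : ℕ) : PowerSeries F) * t +
        PowerSeries.X * PowerSeries.derivative F t))) := by
      rw [hη'] at hA
      linear_combination (-(PowerSeries.C (((r + 1 : ℕ) : F)⁻¹))) * hA -
        (ev P (pderiv k 1 f) + PowerSeries.C lam * ev P (pderiv k 2 f)) *
          PowerSeries.X ^ r * hcn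
    rw [e]
    exact Dvd.dvd.mul_right (mul_dvd_mul hw dvd_rfl) _
  have hf1 : PowerSeries.X ^ ((r + 1) * m + 1) ∣ ev P (pderiv k 1 f) := by
    have e : ev P (pderiv k 1 f) = (ev P (pderiv k 1 f) + PowerSeries.C lam *
        ev P (pderiv k 2 f)) - PowerSeries.C lam * ev P (pderiv k 2 f) := by ring
    rw [e]
    exact dvd_sub ((pow_dvd_pow _ (by omega)).trans hf12) (Dvd.dvd.mul_left hf2 _)
  have hf0 : PowerSeries.X ^ ((r + 1) * m + 1) ∣ ev P (pderiv k 0 f) :=
    (pow_dvd_pow _ (by omega)).trans hw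
  -- the ideal
  have hS : HasSubst P := hs hx
  have hφ : ∀ g : O k 3, ev P g = substAlgHom (R := k) hS g := by
    intro g
    unfold ev
    rw [← coe_substAlgHom hS]
  have hle : jac f ≤ Ideal.comap (substAlgHom (R := k) hS)
      (Ideal.span {(PowerSeries.X : PowerSeries F) ^ ((r + 1) * m + 1)}) := by
    unfold jac
    rw [Ideal.span_le]
    rintro _ ⟨i, rfl⟩
    rw [SetLike.mem_coe, Ideal.mem_comap, Ideal.mem_span_singleton, ← hφ]
    fin_cases i
    · exact hf0
    · exact hf1
    · exact hf2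
  have h3 := hle (h2 k 3 (jac f) m hm 1)
  rw [Ideal.mem_comap, Ideal.mem_span_singleton, map_pow, ← hφ] at h3
  have h4 : ev P (X 1 : O k 3) = PowerSeries.X ^ (r + 1) := by
    unfold ev
    rw [subst_X hS, ← x1]
  rw [h4, ← pow_mul, PowerSeries.X_pow_dvd_iff] at h3
  have h5 := h3 ((r + 1) * m) (by omega)
  rw [PowerSeries.coeff_X_pow, if_pos rfl] at h5
  exact one_ne_zero h5

end Pool.Agent.DU5.LNK.H03
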